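import Pool.Agent.H29.BH.Targets2
import Pool.Agent.H29.THC.DFV

/-!
# The multipliers
-/

set_option autoImplicit false

open NumberField UniqueFactorizationMonoid
open scoped nonZeroDivisors

namespace Pool.Agent.H70.BH

open Pool.Agent.H25.HK Pool.Agent.H23.LB Pool.Agent.H23.LC Pool.Agent.H29.DW
open Pool.Agent.H29.TC (dvs T_DV)
open Pool.Agent.H29.BH

section

variable {K : Type} [Field K] [NumberField K]

/-- the factor of the primes -/
noncomputable def Ds (σ : ℝ) : ℝ := (1 - (2 : ℝ) ^ (-σ))⁻¹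

theorem two_rpow_lt {σ : ℝ} (hσ : 0 < σ) : (2 : ℝ) ^ (-σ) < 1 :=
  Real.rpow_lt_one_of_one_lt_of_neg (by norm_num) (by linarith)

theorem Ds_gt {σ : ℝ} (hσ : 0 < σ) : 1 < Ds σ := by
  have h1 := two_rpow_lt hσ
  have h2 : (0 : ℝ) < 2 ^ (-σ) := by positivity
  unfold Ds
  exact (one_lt_inv₀ (by linarith)).2 (by linarith)

theorem Nf_pos {J : Ideal (𝓞 K)} (hJ : J ≠ 0) : 0 < Nf K J := by
  unfold Nf
  have : Ideal.absNorm J ≠ 0 := fun h => hJ (Ideal.absNorm_eq_zero_iff.1 h)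
  exact_mod_cast Nat.pos_of_ne_zero this

theorem Nf_one_le {J : Ideal (𝓞 K)} (hJ : J ≠ 0) : 1 ≤ Nf K J := by
  unfold Nf
  have : Ideal.absNorm J ≠ 0 := fun h => hJ (Ideal.absNorm_eq_zero_iff.1 h)
  exact_mod_cast Nat.one_le_iff_ne_zero.2 this

theorem Nf_two_le {P : Ideal (𝓞 K)} (hP : Prime P) : 2 ≤ Nf K P := by
  unfold Nf
  have h4 : Ideal.absNorm P ≠ 0 := fun h0 => hP.ne_zero (Ideal.absNorm_eq_zero_iff.1 h0)
  have h5 : Ideal.absNorm P ≠ 1 := fun h1 => hP.not_isUnit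
    (Ideal.isUnit_iff.2 (Ideal.absNorm_eq_one_iff.1 h1))
  have : 2 ≤ Ideal.absNorm P := by omega
  exact_mod_cast this

theorem Nf_mul' (I J : Ideal (𝓞 K)) : Nf K (I * J) = Nf K I * Nf K J := by
  unfold Nf
  rw [map_mul]
  push_cast
  rfl

theorem Nf_pow' (I : Ideal (𝓞 K)) (k : ℕ) : Nf K (I ^ k) = Nf K I ^ k := by
  unfold Nf
  rw [map_pow]
  push_cast
  rfl

open scoped Classical in
/-- the sum over the ideals with prime divisors in `T` -/
theorem rankin {σ : ℝ} (hσ : 0 < σ) (T : Finset (Ideal (𝓞 K))) :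
    (∀ P ∈ T, Prime P) → ∀ S : Finset (Ideal (𝓞 K)),
      (∀ J ∈ S, J ≠ 0 ∧ ∀ P, Prime P → P ∣ J → P ∈ T) →
      ∑ J ∈ S, Nf K J ^ (-σ) ≤ Ds σ ^ T.card := by
  induction T using Finset.induction_on with
  | empty =>
    intro _ S hS
    have h1 : ∀ J ∈ S, J = 1 := by
      intro J hJ
      obtain ⟨h0, h1⟩ := hS J hJ
      by_contra h
      have hu : ¬ IsUnit J := fun hu => h (isUnit_iff_eq_one.1 hu)
      obtain ⟨P, hP, hd⟩ := WfDvdMonoid.exists_irreducible_factor hu h0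
      exact absurd (h1 P (irreducible_iff_prime.1 hP) hd) (by simp)
    have h2 : S ⊆ {1} := fun J hJ => by simpa using h1 J hJ
    calc ∑ J ∈ S, Nf K J ^ (-σ) ≤ ∑ J ∈ ({1} : Finset (Ideal (𝓞 K))), Nf K J ^ (-σ) := by
          refine Finset.sum_le_sum_of_subset_of_nonneg h2 fun J _ _ => ?_
          refine Real.rpow_nonneg ?_ _
          unfold Nf
          positivity
      _ = 1 := by
          rw [Finset.sum_singleton]
          unfold Nf
          simp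
      _ ≤ _ := by simp
  | insert P T' hPT ih =>
    intro hT S hS
    have hP : Prime P := hT P (Finset.mem_insert_self _ _)
    have hT' : ∀ Q ∈ T', Prime Q := fun Q hQ => hT Q (Finset.mem_insert_of_mem hQ)
    have hex : ∀ J : Ideal (𝓞 K), ∃ (k : ℕ) (J' : Ideal (𝓞 K)), J ≠ 0 → ¬ P ∣ J' ∧
        J = P ^ k * J' := by
      intro J
      by_cases h : J = 0
      · exact ⟨0, 0, fun h' => absurd h h'⟩
      · obtain ⟨k, J', h1, h2⟩ := WfDvdMonoid.max_power_factor h hP.irreducible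
        exact ⟨k, J', fun _ => ⟨h1, h2⟩⟩
    choose kf jf hkj using hex
    set x : ℝ := Nf K P ^ (-σ) with hx
    have hx0 : 0 ≤ x := Real.rpow_nonneg (Nf_pos hP.ne_zero).le _
    have hx2 : x ≤ 2 ^ (-σ) :=
      Real.rpow_le_rpow_of_nonpos (by norm_num) (Nf_two_le hP) (by linarith)
    have hx1 : x < 1 := hx2.trans_lt (two_rpow_lt hσ)
    set M := S.sup kf with hM
    set S' := S.image jf with hS'
    have hS'p : ∀ J ∈ S', J ≠ 0 ∧ ∀ Q, Prime Q → Q ∣ J → Q ∈ T' := by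
      intro J' hJ'
      obtain ⟨J, hJ, rfl⟩ := Finset.mem_image.1 hJ'
      obtain ⟨h0, h1⟩ := hS J hJ
      obtain ⟨h2, h3⟩ := hkj J h0
      refine ⟨fun h => h0 (by rw [h3, h, mul_zero]), fun Q hQ hd => ?_⟩
      have h4 := h1 Q hQ (by rw [h3]; exact hd.mul_left _)
      rcases Finset.mem_insert.1 h4 with h5 | h5
      · exact absurd (h5 ▸ hd) h2
      · exact h5
    have h6 := ih hT' S' hS'p
    have h7 : ∑ J ∈ S, Nf K J ^ (-σ) ≤
        ∑ q ∈ Finset.range (M + 1) ×ˢ S', x ^ q.1 * Nf K q.2 ^ (-σ) := by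
      have h8 : ∑ J ∈ S, Nf K J ^ (-σ) =
          ∑ q ∈ S.image (fun J => (kf J, jf J)), x ^ q.1 * Nf K q.2 ^ (-σ) := by
        rw [Finset.sum_image]
        · refine Finset.sum_congr rfl fun J hJ => ?_
          obtain ⟨h0, h1⟩ := hS J hJ
          obtain ⟨h2, h3⟩ := hkj J h0
          have h9 : Nf K J = Nf K P ^ kf J * Nf K (jf J) := by
            conv_lhs => rw [h3]
            rw [Nf_mul', Nf_pow']
          rw [h9, Real.mul_rpow (by have := Nf_pos hP.ne_zero; positivity)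
            (by unfold Nf; positivity), hx, ← Real.rpow_natCast, ← Real.rpow_natCast,
            ← Real.rpow_mul (Nf_pos hP.ne_zero).le, ← Real.rpow_mul (Nf_pos hP.ne_zero).le,
            mul_comm]
          ring_nf
        · intro J hJ J' hJ' h
          have h1 := (hkj J (hS J hJ).1).2
          have h2 := (hkj J' (hS J' hJ').1).2
          simp only [Prod.mk.injEq] at h
          rw [h1, h2, h.1, h.2]
      rw [h8]
      refine Finset.sum_le_sum_of_subset_of_nonneg ?_ fun q _ _ => ?_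
      · intro q hq
        obtain ⟨J, hJ, rfl⟩ := Finset.mem_image.1 hq
        refine Finset.mem_product.2 ⟨?_, Finset.mem_image_of_mem _ hJ⟩
        rw [Finset.mem_range]
        have : kf J ≤ M := Finset.le_sup (f := kf) hJ
        exact Nat.lt_succ_of_le this
      · refine mul_nonneg (pow_nonneg hx0 _) (Real.rpow_nonneg ?_ _)
        unfold Nf
        positivity
    rw [Finset.sum_product] at h7
    have h8 : ∑ k ∈ Finset.range (M + 1), ∑ J ∈ S', x ^ k * Nf K J ^ (-σ) =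
        (∑ k ∈ Finset.range (M + 1), x ^ k) * ∑ J ∈ S', Nf K J ^ (-σ) := by
      rw [Finset.sum_mul_sum]
    have h9 : ∑ k ∈ Finset.range (M + 1), x ^ k ≤ Ds σ := by
      calc ∑ k ∈ Finset.range (M + 1), x ^ k ≤ ∑' k, x ^ k :=
            (summable_geometric_of_lt_one hx0 hx1).sum_le_tsum _ fun k _ => pow_nonneg hx0 k
        _ = (1 - x)⁻¹ := tsum_geometric_of_lt_one hx0 hx1
        _ ≤ Ds σ := by
            unfold Ds
            have := two_rpow_lt hσ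
            exact inv_anti₀ (by linarith) (by linarith)
    rw [Finset.card_insert_of_notMem hPT, pow_succ, mul_comm (Ds σ ^ _)]
    refine h7.trans (h8.le.trans ?_)
    have h10 : 0 ≤ ∑ J ∈ S', Nf K J ^ (-σ) :=
      Finset.sum_nonneg fun J _ => Real.rpow_nonneg (by unfold Nf; positivity) _
    have := Ds_gt hσ
    exact mul_le_mul h9 h6 h10 (by linarith)

theorem card_smooth {σ A : ℝ} (hσ : 0 < σ) (hA : 0 < A) (T S : Finset (Ideal (𝓞 K)))
    (hT : ∀ P ∈ T, Prime P)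
    (hS : ∀ J ∈ S, J ≠ 0 ∧ ∀ P, Prime P → P ∣ J → P ∈ T) (hN : ∀ J ∈ S, Nf K J ≤ A) :
    (S.card : ℝ) ≤ A ^ σ * Ds σ ^ T.card := by
  have h1 := rankin hσ T hT S hS
  calc (S.card : ℝ) = ∑ J ∈ S, (1 : ℝ) := by simp
    _ ≤ ∑ J ∈ S, A ^ σ * Nf K J ^ (-σ) := by
        refine Finset.sum_le_sum fun J hJ => ?_
        have h0 := Nf_pos (hS J hJ).1
        rw [Real.rpow_neg h0.le, ← div_eq_mul_inv, one_le_div (by positivity)]
        exact Real.rpow_le_rpow h0.le (hN J hJ) hσ.le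
    _ = A ^ σ * ∑ J ∈ S, Nf K J ^ (-σ) := by rw [Finset.mul_sum]
    _ ≤ _ := mul_le_mul_of_nonneg_left h1 (by positivity)

open scoped Classical in
/-- the prime divisors -/
noncomputable def pd (f : Ideal (𝓞 K)) : Finset (Ideal (𝓞 K)) := (dvs K f).filter Prime

theorem mem_pd {f : Ideal (𝓞 K)} (hf : f ≠ ⊥) {P : Ideal (𝓞 K)} :
    P ∈ pd f ↔ P ∣ f ∧ Prime P := by
  classical
  unfold pd
  rw [Finset.mem_filter, Pool.Agent.H29.THC.pf_DF K f hf, Ideal.dvd_iff_le]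

theorem two_pow_pd {f : Ideal (𝓞 K)} (hf : f ≠ ⊥) : 2 ^ (pd f).card ≤ (dvs K f).card := by
  classical
  rw [← Finset.card_powerset]
  refine Finset.card_le_card_of_injOn (fun U => ∏ P ∈ U, P) ?_ ?_
  · intro U hU
    have hU' : U ⊆ pd f := by simpa using hU
    have : ∏ P ∈ U, P ∣ f := Finset.prod_primes_dvd _ (fun P hP => ((mem_pd hf).1 (hU' hP)).2)
      fun P hP => ((mem_pd hf).1 (hU' hP)).1
    exact (Pool.Agent.H29.THC.pf_DF K f hf _).2 (Ideal.dvd_iff_le.1 this)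
  · have key : ∀ U V : Finset (Ideal (𝓞 K)), U ⊆ pd f → V ⊆ pd f →
        ∏ P ∈ U, P = ∏ P ∈ V, P → U ⊆ V := by
      intro U V hU hV h P hP
      have h1 : P ∣ ∏ Q ∈ V, Q := by
        rw [← h]
        exact Finset.dvd_prod_of_mem _ hP
      obtain ⟨Q, hQ, hd⟩ := (((mem_pd hf).1 (hU hP)).2.dvd_finsetProd_iff _).1 h1
      have h2 := (((mem_pd hf).1 (hU hP)).2.associated_of_dvd
        ((mem_pd hf).1 (hV hQ)).2 hd)
      rw [associated_iff_eq] at h2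
      rwa [h2]
    intro U hU V hV h
    have hU' : U ⊆ pd f := by simpa using hU
    have hV' : V ⊆ pd f := by simpa using hV
    exact Finset.Subset.antisymm (key U V hU' hV' h) (key V U hV' hU' h.symm)

theorem split_ideal {f : Ideal (𝓞 K)} (hf : f ≠ ⊥) (I : Ideal (𝓞 K)) (hI : I ≠ 0) :
    ∃ J a : Ideal (𝓞 K), I = J * a ∧ J ≠ 0 ∧ a ≠ 0 ∧ (∀ P, Prime P → P ∣ J → P ∈ pd f) ∧
      a ⊔ f = ⊤ := by
  classical
  set F := normalizedFactors I with hF
  have h1 : (F.filter (· ∈ pd f)).prod * (F.filter (fun P => ¬ P ∈ pd f)).prod = I := by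
    rw [← Multiset.prod_add, Multiset.filter_add_not]
    exact Ideal.prod_normalizedFactors_eq_self hI
  have hpr : ∀ P ∈ F, Prime P := fun P hP => prime_of_normalized_factor P hP
  refine ⟨(F.filter (· ∈ pd f)).prod, (F.filter (fun P => ¬ P ∈ pd f)).prod, h1.symm, ?_, ?_,
    ?_, ?_⟩
  · intro h
    exact hI (by rw [← h1, h, zero_mul])
  · intro h
    exact hI (by rw [← h1, h, mul_zero])
  · intro P hP hd
    obtain ⟨Q, hQ, hdQ⟩ := hP.exists_mem_multiset_dvd hd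
    rw [Multiset.mem_filter] at hQ
    have h2 := hP.associated_of_dvd (hpr Q hQ.1) hdQ
    rw [associated_iff_eq] at h2
    rw [h2]
    exact hQ.2
  · by_contra h
    obtain ⟨P, hP, hle⟩ := Ideal.exists_le_maximal _ h
    have hPf : P ∣ f := Ideal.dvd_iff_le.2 (le_sup_right.trans hle)
    have hPa : P ∣ (F.filter (fun P => ¬ P ∈ pd f)).prod :=
      Ideal.dvd_iff_le.2 (le_sup_left.trans hle)
    have hP0 : P ≠ ⊥ := fun h0 => hf (by
      rw [h0] at hPf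
      rw [← Ideal.zero_eq_bot] at hPf ⊢
      exact zero_dvd_iff.1 hPf)
    have hPp : Prime P := Ideal.prime_of_isPrime hP0 hP.isPrime
    obtain ⟨Q, hQ, hdQ⟩ := hPp.exists_mem_multiset_dvd hPa
    rw [Multiset.mem_filter] at hQ
    have h2 := hPp.associated_of_dvd (hpr Q hQ.1) hdQ
    rw [associated_iff_eq] at h2
    exact hQ.2 (h2 ▸ (mem_pd hf).2 ⟨hPf, hPp⟩)

theorem log_count {δ A : ℝ} (hδ : 0 < δ) (hA : 1 ≤ A) :
    ((Nat.log 2 ⌊A⌋₊ : ℕ) : ℝ) + 1 ≤ (1 / (δ * Real.log 2) + 1) * A ^ δ := by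
  have hl2 : 0 < Real.log 2 := Real.log_pos (by norm_num)
  have hA0 : 0 < A := by linarith
  have h1 : (1 : ℝ) ≤ A ^ δ := Real.one_le_rpow hA hδ.le
  have hfl : ⌊A⌋₊ ≠ 0 := by
    have : 1 ≤ ⌊A⌋₊ := Nat.le_floor (by simpa using hA)
    omega
  have h2 : ((2 ^ Nat.log 2 ⌊A⌋₊ : ℕ) : ℝ) ≤ A := by
    have h3 : 2 ^ Nat.log 2 ⌊A⌋₊ ≤ ⌊A⌋₊ := Nat.pow_log_le_self 2 hfl
    calc ((2 ^ Nat.log 2 ⌊A⌋₊ : ℕ) : ℝ) ≤ (⌊A⌋₊ : ℝ) := by exact_mod_cast h3
      _ ≤ A := Nat.floor_le hA0.le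
  have h3 : (Nat.log 2 ⌊A⌋₊ : ℝ) * Real.log 2 ≤ Real.log A := by
    rw [← Real.log_pow]
    refine Real.log_le_log (by positivity) ?_
    exact_mod_cast h2
  have h4 : Real.log A ≤ A ^ δ / δ := Real.log_le_rpow_div hA0.le hδ
  have h5 : (Nat.log 2 ⌊A⌋₊ : ℝ) ≤ 1 / (δ * Real.log 2) * A ^ δ := by
    have h6 : (Nat.log 2 ⌊A⌋₊ : ℝ) ≤ (A ^ δ / δ) / Real.log 2 := by
      rw [le_div_iff₀ hl2]
      linarith
    calc (Nat.log 2 ⌊A⌋₊ : ℝ) ≤ (A ^ δ / δ) / Real.log 2 := h6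
      _ = _ := by field_simp
  linarith

open scoped Classical in
theorem mult_class {f : Ideal (𝓞 K)} (hf : f ≠ ⊥) {δ A : ℝ} (hδ : 0 < δ) (hA : 1 ≤ A) :
    ∃ (A' : ℝ) (S : Finset (Ideal (𝓞 K))), A' ≤ A ∧ Mul f A' S ∧
      (({I : Ideal (𝓞 K) | I ≠ ⊥ ∧ (Ideal.absNorm I : ℝ) ≤ A}.ncard : ℕ) : ℝ) ≤
        A ^ δ * Ds δ ^ (pd f).card * ((1 / (δ * Real.log 2) + 1) * A ^ δ) * S.card := by
  have hA0 : 0 < A := by linarith
  have hfin : {I : Ideal (𝓞 K) | I ≠ ⊥ ∧ (Ideal.absNorm I : ℝ) ≤ A}.Finite := by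
    refine (Ideal.finite_setOfPred_absNorm_le (S := 𝓞 K) ⌊A⌋₊).subset fun I hI => ?_
    exact Nat.le_floor hI.2
  set U := hfin.toFinset with hU
  have hUm : ∀ I, I ∈ U ↔ I ≠ ⊥ ∧ Nf K I ≤ A := by
    intro I
    rw [hU, Set.Finite.mem_toFinset]
    rfl
  have hUc : (({I : Ideal (𝓞 K) | I ≠ ⊥ ∧ (Ideal.absNorm I : ℝ) ≤ A}.ncard : ℕ) : ℝ) =
      U.card := by
    rw [Set.ncard_eq_toFinset_card _ hfin]
  have hex : ∀ I : Ideal (𝓞 K), ∃ J a : Ideal (𝓞 K), I ≠ ⊥ → (I = J * a ∧ J ≠ 0 ∧ a ≠ 0 ∧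
      (∀ P, Prime P → P ∣ J → P ∈ pd f) ∧ a ⊔ f = ⊤) := by
    intro I
    by_cases h : I = ⊥
    · exact ⟨⊥, ⊥, fun h' => absurd h h'⟩
    · obtain ⟨J, a, h1⟩ := split_ideal hf I h
      exact ⟨J, a, fun _ => h1⟩
  choose jf af hja using hex
  have hNJ : ∀ I ∈ U, Nf K (jf I) ≤ A := by
    intro I hI
    obtain ⟨h0, h1⟩ := (hUm I).1 hI
    obtain ⟨h2, h3, h4, -, -⟩ := hja I h0
    have h5 : Nf K I = Nf K (jf I) * Nf K (af I) := by
      conv_lhs => rw [h2]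
      rw [Nf_mul']
    have h6 := Nf_one_le h4
    have h7 := Nf_pos h3
    nlinarith
  have hNa : ∀ I ∈ U, Nf K (af I) ≤ A := by
    intro I hI
    obtain ⟨h0, h1⟩ := (hUm I).1 hI
    obtain ⟨h2, h3, h4, -, -⟩ := hja I h0
    have h5 : Nf K I = Nf K (jf I) * Nf K (af I) := by
      conv_lhs => rw [h2]
      rw [Nf_mul']
    have h6 := Nf_one_le h3
    have h7 := Nf_pos h4
    nlinarith
  set t := (U.image jf) ×ˢ Finset.range (Nat.log 2 ⌊A⌋₊ + 1) with ht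
  have hmap : ∀ I ∈ U, (jf I, Nat.log 2 (Ideal.absNorm (af I))) ∈ t := by
    intro I hI
    refine Finset.mem_product.2 ⟨Finset.mem_image_of_mem _ hI, ?_⟩
    rw [Finset.mem_range]
    have h1 : Ideal.absNorm (af I) ≤ ⌊A⌋₊ := Nat.le_floor (hNa I hI)
    have h2 : Nat.log 2 (Ideal.absNorm (af I)) ≤ Nat.log 2 ⌊A⌋₊ := Nat.log_mono_right h1
    exact Nat.lt_succ_of_le h2
  have hUne : (⊤ : Ideal (𝓞 K)) ∈ U := by
    rw [hUm]
    refine ⟨top_ne_bot, ?_⟩
    unfold Nf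
    simpa using hA
  have htne : t.Nonempty := ⟨_, hmap _ hUne⟩
  have htc : 0 < (t.card : ℝ) := by exact_mod_cast htne.card_pos
  obtain ⟨q, hq, hqc⟩ := Finset.exists_le_card_fiber_of_nsmul_le_card_of_maps_to hmap htne
    (b := (U.card : ℝ) / t.card) (by
      rw [nsmul_eq_mul]
      exact le_of_eq (mul_div_cancel₀ _ htc.ne'))
  set Fb := U.filter (fun I => (jf I, Nat.log 2 (Ideal.absNorm (af I))) = q) with hFb
  have hFm : ∀ I ∈ Fb, I ∈ U ∧ jf I = q.1 ∧ Nat.log 2 (Ideal.absNorm (af I)) = q.2 := by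
    intro I hI
    rw [hFb, Finset.mem_filter] at hI
    exact ⟨hI.1, by rw [← hI.2], by rw [← hI.2]⟩
  have hUpos : 0 < (U.card : ℝ) := by exact_mod_cast Finset.card_pos.2 ⟨_, hUne⟩
  have hFpos : 0 < (Fb.card : ℝ) := lt_of_lt_of_le (div_pos hUpos htc) hqc
  have hFne : Fb.Nonempty := Finset.card_pos.1 (by exact_mod_cast hFpos)
  have hsize : ∀ I ∈ Fb, ((2 ^ q.2 : ℕ) : ℝ) ≤ Nf K (af I) ∧
      Nf K (af I) < 2 * ((2 ^ q.2 : ℕ) : ℝ) := by
    intro I hI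
    obtain ⟨h1, h2, h3⟩ := hFm I hI
    have h4 := (hja I ((hUm I).1 h1).1).2.2.1
    have h5 : Ideal.absNorm (af I) ≠ 0 := fun h => h4 (Ideal.absNorm_eq_zero_iff.1 h)
    have h6 : 2 ^ q.2 ≤ Ideal.absNorm (af I) := by
      rw [← h3]
      exact Nat.pow_log_le_self 2 h5
    have h7 : Ideal.absNorm (af I) < 2 ^ (q.2 + 1) := by
      rw [← h3]
      exact Nat.lt_pow_succ_log_self (by norm_num) _
    refine ⟨by unfold Nf; exact_mod_cast h6, ?_⟩
    unfold Nf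
    rw [pow_succ] at h7
    have h8 : ((Ideal.absNorm (af I) : ℕ) : ℝ) < ((2 ^ q.2 * 2 : ℕ) : ℝ) := by exact_mod_cast h7
    push_cast at h8 ⊢
    linarith
  have hinj : Set.InjOn af (Fb : Set (Ideal (𝓞 K))) := by
    intro I hI I' hI' h
    obtain ⟨h1, h2, -⟩ := hFm I hI
    obtain ⟨h1', h2', -⟩ := hFm I' hI'
    have h3 := (hja I ((hUm I).1 h1).1).1
    have h3' := (hja I' ((hUm I').1 h1').1).1
    rw [h3, h3', h2, h2', h]
  refine ⟨((2 ^ q.2 : ℕ) : ℝ), Fb.image af, ?_, ⟨?_, ?_, ?_, ?_⟩, ?_⟩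
  · obtain ⟨I, hI⟩ := hFne
    exact (hsize I hI).1.trans (hNa I (hFm I hI).1)
  · exact_mod_cast Nat.one_le_two_pow
  · intro a ha
    obtain ⟨I, hI, rfl⟩ := Finset.mem_image.1 ha
    exact (hja I ((hUm I).1 (hFm I hI).1).1).2.2.1
  · intro a ha
    obtain ⟨I, hI, rfl⟩ := Finset.mem_image.1 ha
    exact (hja I ((hUm I).1 (hFm I hI).1).1).2.2.2.2
  · intro a ha
    obtain ⟨I, hI, rfl⟩ := Finset.mem_image.1 ha
    exact hsize I hI
  · rw [hUc, Finset.card_image_of_injOn hinj]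
    have h1 : (U.card : ℝ) ≤ t.card * Fb.card := by
      rw [div_le_iff₀ htc] at hqc
      linarith
    refine h1.trans ?_
    refine mul_le_mul_of_nonneg_right ?_ (by positivity)
    have h2 : (t.card : ℝ) = (U.image jf).card * ((Nat.log 2 ⌊A⌋₊ : ℕ) + 1 : ℝ) := by
      rw [ht, Finset.card_product, Finset.card_range]
      push_cast
      ring
    rw [h2]
    have h3 : ((U.image jf).card : ℝ) ≤ A ^ δ * Ds δ ^ (pd f).card := by
      refine card_smooth hδ hA0 (pd f) _ (fun P hP => ((mem_pd hf).1 hP).2) ?_ ?_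
      · intro J hJ
        obtain ⟨I, hI, rfl⟩ := Finset.mem_image.1 hJ
        obtain ⟨-, h3, -, h5, -⟩ := hja I ((hUm I).1 hI).1
        exact ⟨h3, h5⟩
      · intro J hJ
        obtain ⟨I, hI, rfl⟩ := Finset.mem_image.1 hJ
        exact hNJ I hI
    have h4 := Ds_gt hδ
    exact mul_le_mul h3 (log_count hδ hA) (by positivity) (by positivity)

end

theorem pf_P_IE (hID : P_ID) (hDV : T_DV) : P_IE := by
  classical
  intro n hn ε hε hε4
  set δ : ℝ := ε / 3 with hδd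
  have hδ : 0 < δ := by positivity
  have hD := Ds_gt hδ
  set lam : ℝ := Real.logb 2 (Ds δ) with hlam
  have hlam0 : 0 < lam := Real.logb_pos (by norm_num) hD
  obtain ⟨c0, hc0, hID1⟩ := hID n hn δ hδ (by rw [hδd]; linarith)
  obtain ⟨C0, hDV1⟩ := hDV n (δ / lam) (by positivity)
  set C1 : ℝ := max C0 1 with hC1
  have hC11 : 1 ≤ C1 := le_max_right _ _
  have hl2 : 0 < Real.log 2 := Real.log_pos (by norm_num)
  set C2 : ℝ := 1 / (δ * Real.log 2) + 1 with hC2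
  have hC20 : 0 < C2 := by positivity
  refine ⟨c0 / (C1 ^ lam * C2), by positivity, ?_⟩
  intro K _ _ hK f hf A hA
  have hd1 : (1 : ℝ) ≤ |(discr K : ℝ)| := by
    have h1 : (1 : ℤ) ≤ |discr K| := Int.one_le_abs (NumberField.discr_ne_zero K)
    exact_mod_cast h1
  have hA1 : 1 ≤ A := (Real.one_le_rpow hd1 (by linarith)).trans hA
  have hA0 : 0 < A := by linarith
  obtain ⟨A', S, h1, h2, h3⟩ := mult_class hf hδ hA1
  refine ⟨A', S, h1, h2, ?_⟩
  have h4 := hID1 K hK A ((Real.rpow_le_rpow_of_exponent_le hd1 (by rw [hδd]; linarith)).trans hA)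
  have hNf := Nf_one_le (K := K) hf
  have hNf0 := Nf_pos (K := K) hf
  have h5 : Ds δ ^ (pd f).card ≤ C1 ^ lam * Nf K f ^ δ := by
    have h6 : (2 : ℝ) ^ (pd f).card ≤ C1 * Nf K f ^ (δ / lam) := by
      calc (2 : ℝ) ^ (pd f).card ≤ (dvs K f).card := by exact_mod_cast two_pow_pd hf
        _ ≤ C0 * Nf K f ^ (δ / lam) := hDV1 K hK f hf
        _ ≤ _ := mul_le_mul_of_nonneg_right (le_max_left _ _) (by positivity)
    have h7 : Ds δ ^ (pd f).card = ((2 : ℝ) ^ (pd f).card) ^ lam := by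
      have h8 : (2 : ℝ) ^ lam = Ds δ := Real.rpow_logb (by norm_num) (by norm_num) (by linarith)
      rw [← Real.rpow_natCast 2, ← Real.rpow_mul (by norm_num), mul_comm, Real.rpow_mul
        (by norm_num), h8, Real.rpow_natCast]
    rw [h7]
    calc ((2 : ℝ) ^ (pd f).card) ^ lam ≤ (C1 * Nf K f ^ (δ / lam)) ^ lam :=
          Real.rpow_le_rpow (by positivity) h6 hlam0.le
      _ = _ := by
          rw [Real.mul_rpow (by positivity) (by positivity), ← Real.rpow_mul hNf0.le,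
            div_mul_cancel₀ _ hlam0.ne']
  set R : ℝ := classNumber K * Units.regulator K with hR
  have hR0 : 0 ≤ R := by
    have := Units.regulator_pos K
    positivity
  have h6 : c0 * (A ^ (1 - δ) * R / Real.sqrt |(discr K : ℝ)|) ≤
      A ^ δ * (C1 ^ lam * Nf K f ^ δ) * (C2 * A ^ δ) * S.card := by
    refine h4.trans (h3.trans ?_)
    gcongr
  have h7 : (A * Nf K f) ^ (-ε) * (A * R / Real.sqrt |(discr K : ℝ)|) ≤
      (A ^ δ * Nf K f ^ δ * A ^ δ)⁻¹ * (A ^ (1 - δ) * R / Real.sqrt |(discr K : ℝ)|) := by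
    have e1 : (A * Nf K f) ^ (-ε) = A ^ (-ε) * Nf K f ^ (-ε) :=
      Real.mul_rpow hA0.le hNf0.le
    have e2 : (A ^ δ * Nf K f ^ δ * A ^ δ)⁻¹ = A ^ (-δ) * A ^ (-δ) * Nf K f ^ (-δ) := by
      rw [Real.rpow_neg hA0.le, Real.rpow_neg hNf0.le]
      field_simp
    have e3 : A ^ (-ε) * A = A ^ (-δ) * A ^ (-δ) * A ^ (1 - δ) := by
      rw [← Real.rpow_add hA0, ← Real.rpow_add hA0]
      conv_lhs => rw [← Real.rpow_one A, ← Real.rpow_mul hA0.le, ← Real.rpow_add hA0]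
      congr 1
      rw [hδd]
      ring
    have e4 : Nf K f ^ (-ε) ≤ Nf K f ^ (-δ) :=
      Real.rpow_le_rpow_of_exponent_le hNf (by rw [hδd]; linarith)
    have e5 : (A * Nf K f) ^ (-ε) * (A * R / Real.sqrt |(discr K : ℝ)|) =
        Nf K f ^ (-ε) * ((A ^ (-ε) * A) * R / Real.sqrt |(discr K : ℝ)|) := by
      rw [e1]
      ring
    rw [e5, e2, e3]
    have e6 : A ^ (-δ) * A ^ (-δ) * Nf K f ^ (-δ) * (A ^ (1 - δ) * R /
        Real.sqrt |(discr K : ℝ)|) = Nf K f ^ (-δ) * ((A ^ (-δ) * A ^ (-δ) * A ^ (1 - δ)) * R /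
          Real.sqrt |(discr K : ℝ)|) := by ring
    rw [e6]
    exact mul_le_mul_of_nonneg_right e4 (by positivity)
  have h8 : 0 < A ^ δ * Nf K f ^ δ * A ^ δ := by positivity
  have h9 : 0 < C1 ^ lam * C2 := by positivity
  calc c0 / (C1 ^ lam * C2) * (A * Nf K f) ^ (-ε) * (A * R / Real.sqrt |(discr K : ℝ)|) =
        c0 / (C1 ^ lam * C2) * ((A * Nf K f) ^ (-ε) * (A * R / Real.sqrt |(discr K : ℝ)|)) := by
          ring
    _ ≤ c0 / (C1 ^ lam * C2) * ((A ^ δ * Nf K f ^ δ * A ^ δ)⁻¹ *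
          (A ^ (1 - δ) * R / Real.sqrt |(discr K : ℝ)|)) :=
        mul_le_mul_of_nonneg_left h7 (by positivity)
    _ = (C1 ^ lam * C2)⁻¹ * (A ^ δ * Nf K f ^ δ * A ^ δ)⁻¹ *
          (c0 * (A ^ (1 - δ) * R / Real.sqrt |(discr K : ℝ)|)) := by
        rw [div_eq_mul_inv]
        ring
    _ ≤ (C1 ^ lam * C2)⁻¹ * (A ^ δ * Nf K f ^ δ * A ^ δ)⁻¹ *
          (A ^ δ * (C1 ^ lam * Nf K f ^ δ) * (C2 * A ^ δ) * S.card) :=
        mul_le_mul_of_nonneg_left h6 (by positivity)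
    _ = S.card := by
        field_simp

end Pool.Agent.H70.BH
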